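import Pool.Agent.H25.AniL
import Pool.Agent.H26.SL.AniT

/-!
The regular `n`-gon is not optimal for the anisotropic Cheeger functional of the disk among
centrally symmetric convex `n`-gons, for every even `n ≥ 22`: a disproof of Q1.

The definitions are in `Pool/Agent/H26/SL/AniC.lean` (plane `ℂ`); the proof is in
`Pool/Agent/H25/AniA.lean` up to `Pool/Agent/H25/AniL.lean` (plane `EuclideanSpace ℝ (Fin 2)`), the
two planes are compared in `Pool/Agent/H26/SL/AniT.lean`.
-/

open Pool.Agent.H26.SL.AniC

namespace Pool.Agent.Results.MP_4eea03_an.RegularNotOptimal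

/-- **Main theorem** (the negated form of Q1). For every even `n ≥ 22` there is a centrally
symmetric convex polygon `P` with exactly `n` vertices and `J_B[P] < J_B[P*_n]`. -/
theorem result (n : ℕ) (hev : Even n) (hn : 22 ≤ n) :
    ∃ P : Set ℂ, IsGon n P ∧ JJ P < JJ (regGon n) :=
  Pool.Agent.H26.SL.AniT.notOptimal n (H25Ani.partB n hev hn)

end Pool.Agent.Results.MP_4eea03_an.RegularNotOptimal
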