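import Pool.Agent.H25.AniI
import Pool.Agent.H26.SL.AniT

/-!
The square is optimal for the anisotropic Cheeger functional of the disk among all centrally
symmetric quadrilaterals (the case `n = 4` of the question).

The definitions are in `Pool/Agent/H26/SL/AniC.lean` (plane `ℂ`); the proof is in
`Pool/Agent/H25/AniA.lean` up to `Pool/Agent/H25/AniI.lean` (plane `EuclideanSpace ℝ (Fin 2)`), the
two planes are compared in `Pool/Agent/H26/SL/AniT.lean`.
-/

open Pool.Agent.H26.SL.AniC

namespace Pool.Agent.Results.MP_4eea03_an.SquareOptimal

/-- **Main theorem.** Among all centrally symmetric convex polygons with exactly four vertices,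
the regular one (the square) minimizes `J_B`: the case `n = 4` of Q1. -/
theorem result (P : Set ℂ) (hP : IsGon 4 P) : JJ (regGon 4) ≤ JJ P :=
  Pool.Agent.H26.SL.AniT.square H25Ani.partA P hP

end Pool.Agent.Results.MP_4eea03_an.SquareOptimal
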